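import Mathlib

/-! `fun_prop` support for `Computable`, computably enumerable predicates `RE`
with uniformisation, and uniformly computable nonnegative real families `CR`. -/

set_option autoImplicit false

namespace Pool.Agent.Lib.ComputableProp

attribute [fun_prop] Computable

variable {α β γ σ : Type} [Primcodable α] [Primcodable β] [Primcodable γ] [Primcodable σ]

@[fun_prop] theorem c_id : Computable (fun a : α => a) := Computable.id

@[fun_prop] theorem c_const (x : σ) : Computable (fun _ : α => x) := Computable.const x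

@[fun_prop] theorem c_comp {f : β → σ} {g : α → β} (hf : Computable f) (hg : Computable g) :
    Computable (fun a => f (g a)) := hf.comp hg

@[fun_prop] theorem c_fst {f : α → β × γ} (hf : Computable f) : Computable (fun a => (f a).1) :=
  Computable.fst.comp hf

@[fun_prop] theorem c_snd {f : α → β × γ} (hf : Computable f) : Computable (fun a => (f a).2) :=
  Computable.snd.comp hf

@[fun_prop] theorem c_pair {f : α → β} {g : α → γ} (hf : Computable f) (hg : Computable g) :
    Computable (fun a => (f a, g a)) := hf.pair hg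

@[fun_prop] theorem c_and {f g : α → Bool} (hf : Computable f) (hg : Computable g) :
    Computable (fun a => (f a && g a)) := Primrec.and.to_comp.comp hf hg

@[fun_prop] theorem c_or {f g : α → Bool} (hf : Computable f) (hg : Computable g) :
    Computable (fun a => (f a || g a)) := Primrec.or.to_comp.comp hf hg

@[fun_prop] theorem c_not {f : α → Bool} (hf : Computable f) :
    Computable (fun a => (!(f a))) := Primrec.not.to_comp.comp hf

@[fun_prop] theorem c_cond {c : α → Bool} {f g : α → σ} (hc : Computable c) (hf : Computable f)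
    (hg : Computable g) : Computable (fun a => cond (c a) (f a) (g a)) := Computable.cond hc hf hg

/-- Boolean equality test built from `DecidableEq`. -/
def eqb [DecidableEq β] (x y : β) : Bool := decide (x = y)

@[simp] theorem eqb_iff {β : Type} [DecidableEq β] (x y : β) : eqb x y = true ↔ x = y := by
  simp [eqb]

@[fun_prop] theorem c_eqb [DecidableEq β] {f g : α → β} (hf : Computable f) (hg : Computable g) :
    Computable (fun a => eqb (f a) (g a)) := by
  have h : Primrec (fun p : β × β => eqb p.1 p.2) :=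
    (Primrec.eq.comp Primrec.fst Primrec.snd).decide
  exact h.to_comp.comp (hf.pair hg)

/-- Boolean order test on naturals. -/
def leb (x y : ℕ) : Bool := decide (x ≤ y)

@[simp] theorem leb_iff (x y : ℕ) : leb x y = true ↔ x ≤ y := by simp [leb]

@[fun_prop] theorem c_leb {f g : α → ℕ} (hf : Computable f) (hg : Computable g) :
    Computable (fun a => leb (f a) (g a)) := by
  have h : Primrec (fun p : ℕ × ℕ => leb p.1 p.2) :=
    (Primrec.nat_le.comp Primrec.fst Primrec.snd).decide
  exact h.to_comp.comp (hf.pair hg)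

@[fun_prop] theorem c_add {f g : α → ℕ} (hf : Computable f) (hg : Computable g) :
    Computable (fun a => f a + g a) := Primrec.nat_add.to_comp.comp hf hg

@[fun_prop] theorem c_sub {f g : α → ℕ} (hf : Computable f) (hg : Computable g) :
    Computable (fun a => f a - g a) := Primrec.nat_sub.to_comp.comp hf hg

@[fun_prop] theorem c_mul {f g : α → ℕ} (hf : Computable f) (hg : Computable g) :
    Computable (fun a => f a * g a) := Primrec.nat_mul.to_comp.comp hf hg

@[fun_prop] theorem c_div {f g : α → ℕ} (hf : Computable f) (hg : Computable g) :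
    Computable (fun a => f a / g a) := Primrec.nat_div.to_comp.comp hf hg

@[fun_prop] theorem c_mod {f g : α → ℕ} (hf : Computable f) (hg : Computable g) :
    Computable (fun a => f a % g a) := Primrec.nat_mod.to_comp.comp hf hg

@[fun_prop] theorem c_max {f g : α → ℕ} (hf : Computable f) (hg : Computable g) :
    Computable (fun a => max (f a) (g a)) := Primrec.nat_max.to_comp.comp hf hg

@[fun_prop] theorem c_pow {f g : α → ℕ} (hf : Computable f) (hg : Computable g) :
    Computable (fun a => f a ^ g a) :=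
  (Primrec₂.unpaired'.1 Nat.Primrec.pow).to_comp.comp hf hg

@[fun_prop] theorem c_unpair {f : α → ℕ} (hf : Computable f) :
    Computable (fun a => Nat.unpair (f a)) := Computable.unpair.comp hf

@[fun_prop] theorem c_natPair {f g : α → ℕ} (hf : Computable f) (hg : Computable g) :
    Computable (fun a => Nat.pair (f a) (g a)) := Primrec₂.natPair.to_comp.comp hf hg

@[fun_prop] theorem c_encode {f : α → β} (hf : Computable f) :
    Computable (fun a => Encodable.encode (f a)) := Computable.encode.comp hf

@[fun_prop] theorem c_decode {f : α → ℕ} (hf : Computable f) :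
    Computable (fun a => Encodable.decode (α := β) (f a)) := Computable.decode.comp hf

@[fun_prop] theorem c_some {f : α → β} (hf : Computable f) : Computable (fun a => some (f a)) :=
  Computable.option_some.comp hf

@[fun_prop] theorem c_cons {f : α → β} {g : α → List β} (hf : Computable f) (hg : Computable g) :
    Computable (fun a => f a :: g a) := Computable.list_cons.comp hf hg

@[fun_prop] theorem c_append {f g : α → List β} (hf : Computable f) (hg : Computable g) :
    Computable (fun a => f a ++ g a) := Computable.list_append.comp hf hg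

@[fun_prop] theorem c_length {f : α → List β} (hf : Computable f) :
    Computable (fun a => (f a).length) := Computable.list_length.comp hf

@[fun_prop] theorem c_reverse {f : α → List β} (hf : Computable f) :
    Computable (fun a => (f a).reverse) := Computable.list_reverse.comp hf

@[fun_prop] theorem c_range {f : α → ℕ} (hf : Computable f) :
    Computable (fun a => List.range (f a)) := Primrec.list_range.to_comp.comp hf

@[fun_prop] theorem c_getElem? {f : α → List β} {g : α → ℕ} (hf : Computable f)
    (hg : Computable g) : Computable (fun a => (f a)[g a]?) :=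
  Computable.list_getElem?.comp hf hg

@[fun_prop] theorem c_getD (d : β) {f : α → List β} {g : α → ℕ} (hf : Computable f)
    (hg : Computable g) : Computable (fun a => List.getD (f a) (g a) d) :=
  (Primrec.list_getD d).to_comp.comp hf hg

@[fun_prop] theorem c_evaln {f : α → ℕ} {g : α → Nat.Partrec.Code} {h : α → ℕ}
    (hf : Computable f) (hg : Computable g) (hh : Computable h) :
    Computable (fun a => Nat.Partrec.Code.evaln (f a) (g a) (h a)) :=
  Nat.Partrec.Code.primrec_evaln.to_comp.comp ((hf.pair hg).pair hh)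

theorem c_ofNat (δ : Type) [Denumerable δ] {f : α → ℕ} (hf : Computable f) :
    Computable (fun a => Denumerable.ofNat δ (f a)) := (Computable.ofNat δ).comp hf

@[fun_prop] theorem c_foldl {f : α → List β} {g : α → σ} {h : α → σ → β → σ}
    (hf : Computable f) (hg : Computable g)
    (hh : Computable (fun x : α × σ × β => h x.1 x.2.1 x.2.2)) :
    Computable (fun a => (f a).foldl (h a) (g a)) := by
  have h1 : Computable₂ (fun (a : α) (p : ℕ × σ) =>
      (Option.casesOn ((f a)[p.1]?) p.2 (fun b => h a p.2 b) : σ)) := by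
    refine Computable.option_casesOn (o := fun x : α × ℕ × σ => (f x.1)[x.2.1]?)
      (f := fun x => x.2.2) (g := fun x b => h x.1 x.2.2 b) (by fun_prop) (by fun_prop) ?_
    exact hh.comp (g := fun y : (α × ℕ × σ) × β => (y.1.1, y.1.2.2, y.2)) (by fun_prop)
  have h2 := Computable.nat_rec (f := fun a => (f a).length) (by fun_prop) hg h1
  refine h2.of_eq fun a => ?_
  have key : ∀ n, n ≤ (f a).length → (Nat.rec (g a) (fun y IH =>
      (Option.casesOn ((f a)[y]?) IH (fun b => h a IH b) : σ)) n : σ) =
      ((f a).take n).foldl (h a) (g a) := by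
    intro n
    induction n with
    | zero => intro _; simp
    | succ n ih =>
      intro hn
      have hlt : n < (f a).length := hn
      rw [List.take_add_one, List.foldl_append, ← ih hlt.le]
      simp [List.getElem?_eq_getElem hlt]
  simpa using key _ le_rfl

@[fun_prop] theorem c_foldr {f : α → List β} {g : α → σ} {h : α → β → σ → σ}
    (hf : Computable f) (hg : Computable g)
    (hh : Computable (fun x : α × β × σ => h x.1 x.2.1 x.2.2)) :
    Computable (fun a => (f a).foldr (h a) (g a)) := by
  have := c_foldl (f := fun a => (f a).reverse) (g := g) (h := fun a s b => h a b s)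
    (by fun_prop) hg (hh.comp (g := fun y : α × σ × β => (y.1, y.2.2, y.2.1)) (by fun_prop))
  refine this.of_eq fun a => ?_
  rw [List.foldl_reverse]

@[fun_prop] theorem c_map {f : α → List β} {g : α → β → σ} (hf : Computable f)
    (hg : Computable (fun x : α × β => g x.1 x.2)) : Computable (fun a => (f a).map (g a)) := by
  have : Computable (fun a => (f a).foldr (fun b s => g a b :: s) []) :=
    c_foldr (h := fun a b s => g a b :: s) hf (Computable.const [])
      (c_cons (hg.comp (g := fun x : α × β × List σ => (x.1, x.2.1)) (by fun_prop)) (by fun_prop))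
  refine this.of_eq fun a => ?_
  induction f a with
  | nil => rfl
  | cons b l ih => simp [ih]

@[fun_prop] theorem c_all {f : α → List β} {g : α → β → Bool} (hf : Computable f)
    (hg : Computable (fun x : α × β => g x.1 x.2)) : Computable (fun a => (f a).all (g a)) := by
  have : Computable (fun a => (f a).foldr (fun b s => (g a b && s)) true) :=
    c_foldr (h := fun a b s => (g a b && s)) hf (Computable.const true)
      (c_and (hg.comp (g := fun x : α × β × Bool => (x.1, x.2.1)) (by fun_prop)) (by fun_prop))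
  refine this.of_eq fun a => ?_
  induction f a with
  | nil => rfl
  | cons b l ih => simp [List.all_cons, ih]

@[fun_prop] theorem c_any {f : α → List β} {g : α → β → Bool} (hf : Computable f)
    (hg : Computable (fun x : α × β => g x.1 x.2)) : Computable (fun a => (f a).any (g a)) := by
  have : Computable (fun a => (f a).foldr (fun b s => (g a b || s)) false) :=
    c_foldr (h := fun a b s => (g a b || s)) hf (Computable.const false)
      (c_or (hg.comp (g := fun x : α × β × Bool => (x.1, x.2.1)) (by fun_prop)) (by fun_prop))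
  refine this.of_eq fun a => ?_
  induction f a with
  | nil => rfl
  | cons b l ih => simp [List.any_cons, ih]

@[fun_prop] theorem c_sum {f : α → List ℕ} (hf : Computable f) :
    Computable (fun a => (f a).sum) := by
  have : Computable (fun a => (f a).foldr (fun b s => b + s) 0) :=
    c_foldr (h := fun _ b s => b + s) hf (Computable.const 0) (by fun_prop)
  refine this.of_eq fun a => ?_
  induction f a with
  | nil => rfl
  | cons b l ih => simp [ih]

/-- computably enumerable predicate, in normal form -/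
def RE (P : α → Prop) : Prop :=
  ∃ t : α × ℕ → Bool, Computable t ∧ ∀ a, P a ↔ ∃ n, t (a, n) = true

namespace RE

theorem of_iff {P Q : α → Prop} (h : RE P) (H : ∀ a, P a ↔ Q a) : RE Q :=
  (funext fun a => propext (H a) : P = Q) ▸ h

theorem of_bool {t : α → Bool} (h : Computable t) : RE (fun a => t a = true) :=
  ⟨fun z => t z.1, by fun_prop, fun a => by simp⟩

theorem comp {P : β → Prop} {f : α → β} (h : RE P) (hf : Computable f) :
    RE (fun a => P (f a)) := by
  obtain ⟨t, ht, H⟩ := h
  exact ⟨fun z => t (f z.1, z.2), by fun_prop, fun a => H (f a)⟩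

theorem eq {f g : α → β} (hf : Computable f) (hg : Computable g) : RE (fun a => f a = g a) := by
  classical
  exact (of_bool (c_eqb hf hg)).of_iff fun a => by simp

theorem ne {f g : α → β} (hf : Computable f) (hg : Computable g) : RE (fun a => f a ≠ g a) := by
  classical
  exact (of_bool (c_not (c_eqb hf hg))).of_iff fun a => by simp [eqb]

theorem le {f g : α → ℕ} (hf : Computable f) (hg : Computable g) : RE (fun a => f a ≤ g a) :=
  (of_bool (c_leb hf hg)).of_iff fun a => by simp

theorem lt {f g : α → ℕ} (hf : Computable f) (hg : Computable g) : RE (fun a => f a < g a) :=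
  (le (f := fun a => f a + 1) (by fun_prop) hg).of_iff fun _ => Nat.succ_le_iff

theorem and {P Q : α → Prop} (hP : RE P) (hQ : RE Q) : RE (fun a => P a ∧ Q a) := by
  obtain ⟨t, ht, H⟩ := hP
  obtain ⟨u, hu, H'⟩ := hQ
  refine ⟨fun z => t (z.1, z.2.unpair.1) && u (z.1, z.2.unpair.2), by fun_prop, fun a => ?_⟩
  show P a ∧ Q a ↔ _
  rw [H, H']
  constructor
  · rintro ⟨⟨k, hk⟩, ⟨l, hl⟩⟩
    exact ⟨Nat.pair k l, by simpa using ⟨hk, hl⟩⟩
  · rintro ⟨k, h1⟩
    simp only [Bool.and_eq_true] at h1
    exact ⟨⟨_, h1.1⟩, ⟨_, h1.2⟩⟩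

theorem or {P Q : α → Prop} (hP : RE P) (hQ : RE Q) : RE (fun a => P a ∨ Q a) := by
  obtain ⟨t, ht, H⟩ := hP
  obtain ⟨u, hu, H'⟩ := hQ
  refine ⟨fun z => t z || u z, by fun_prop, fun a => ?_⟩
  show P a ∨ Q a ↔ _
  rw [H, H']
  simp only [Bool.or_eq_true, exists_or]

theorem ex {R : α → β → Prop} (h : RE (fun z : α × β => R z.1 z.2)) :
    RE (fun a => ∃ b, R a b) := by
  obtain ⟨t, ht, H⟩ := h
  refine ⟨fun z => (Encodable.decode (α := β) z.2.unpair.1).toList.any
    (fun b => t ((z.1, b), z.2.unpair.2)), ?_, fun a => ?_⟩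
  · refine c_any (Primrec.optionToList.to_comp.comp (by fun_prop)) (by fun_prop)
  · constructor
    · rintro ⟨b, hb⟩
      obtain ⟨k, hk⟩ := (H (a, b)).1 hb
      exact ⟨Nat.pair (Encodable.encode b) k, by simpa using hk⟩
    · rintro ⟨k, hk⟩
      simp only [List.any_eq_true] at hk
      obtain ⟨b, -, hb⟩ := hk
      exact ⟨b, (H (a, b)).2 ⟨_, hb⟩⟩

theorem forall_mem {R : α → β → Prop} {l : α → List β} (hl : Computable l)
    (h : RE (fun z : α × β => R z.1 z.2)) : RE (fun a => ∀ b ∈ l a, R a b) := by
  obtain ⟨t, ht, H⟩ := h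
  refine ⟨fun z => (l z.1).all fun b => (List.range z.2).any fun k => t ((z.1, b), k),
    by fun_prop, fun a => ?_⟩
  simp only [List.all_eq_true, List.any_eq_true, List.mem_range]
  constructor
  · intro h
    have key : ∀ m : List β, (∀ b ∈ m, R a b) →
        ∃ K, ∀ b ∈ m, ∃ k, k < K ∧ t ((a, b), k) = true := by
      intro m
      induction m with
      | nil => intro _; exact ⟨0, by simp⟩
      | cons b m ih =>
        intro hm
        obtain ⟨K, hK⟩ := ih (fun c hc => hm c (List.mem_cons_of_mem _ hc))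
        obtain ⟨k, hk⟩ := (H (a, b)).1 (hm b List.mem_cons_self)
        refine ⟨max K (k + 1), fun c hc => ?_⟩
        rcases List.mem_cons.1 hc with rfl | hc
        · exact ⟨k, by omega, hk⟩
        · obtain ⟨j, hj, hP⟩ := hK c hc
          exact ⟨j, by omega, hP⟩
    exact key _ h
  · rintro ⟨K, hK⟩ b hb
    obtain ⟨k, -, hk⟩ := hK b hb
    exact (H (a, b)).2 ⟨k, hk⟩

theorem forall_lt {R : α → ℕ → Prop} {l : α → ℕ} (hl : Computable l)
    (h : RE (fun z : α × ℕ => R z.1 z.2)) : RE (fun a => ∀ b < l a, R a b) :=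
  (forall_mem (l := fun a => List.range (l a)) (by fun_prop) h).of_iff fun a => by simp

theorem mem {f : α → β} {l : α → List β} (hf : Computable f) (hl : Computable l) :
    RE (fun a => f a ∈ l a) := by
  classical
  exact (of_bool (t := fun a => (l a).any fun b => eqb b (f a)) (by fun_prop)).of_iff
    fun a => by simp

theorem not_mem {f : α → β} {l : α → List β} (hf : Computable f) (hl : Computable l) :
    RE (fun a => f a ∉ l a) := by
  classical
  exact (of_bool (t := fun a => !((l a).any fun b => eqb b (f a))) (by fun_prop)).of_iff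
    fun a => by simp [eqb]; aesop

theorem exists_mem {R : α → β → Prop} {l : α → List β} (hl : Computable l)
    (h : RE (fun z : α × β => R z.1 z.2)) : RE (fun a => ∃ b ∈ l a, R a b) :=
  ex (and (mem (by fun_prop) (by fun_prop)) h)

theorem exists_lt {R : α → ℕ → Prop} {l : α → ℕ} (hl : Computable l)
    (h : RE (fun z : α × ℕ => R z.1 z.2)) : RE (fun a => ∃ b < l a, R a b) :=
  ex (and (lt (by fun_prop) (by fun_prop)) h)

/-- uniformisation of a total c.e. relation -/
theorem uniformize {R : α → β → Prop} (h : RE (fun z : α × β => R z.1 z.2))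
    (tot : ∀ a, ∃ b, R a b) : ∃ g : α → β, Computable g ∧ ∀ a, R a (g a) := by
  obtain ⟨t, ht, H⟩ := h
  let F : α → ℕ → Option β := fun a n => (Encodable.decode (α := β) n.unpair.1).bind
    fun b => cond (t ((a, b), n.unpair.2)) (some b) none
  have hF : Computable₂ F := by
    refine Computable.option_bind (f := fun z : α × ℕ => Encodable.decode (α := β) z.2.unpair.1)
      (g := fun z b => cond (t ((z.1, b), z.2.unpair.2)) (some b) none) (by fun_prop) ?_
    unfold Computable₂
    fun_prop
  have hdom : ∀ a, (Nat.rfindOpt (F a)).Dom := by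
    intro a
    obtain ⟨b, hb⟩ := tot a
    obtain ⟨k, hk⟩ := (H (a, b)).1 hb
    exact Nat.rfindOpt_dom.2 ⟨Nat.pair (Encodable.encode b) k, b, by simp [F, hk]⟩
  refine ⟨fun a => (Nat.rfindOpt (F a)).get (hdom a),
    (Partrec.rfindOpt hF).of_eq_tot fun a => Part.get_mem _, fun a => ?_⟩
  obtain ⟨n, hn⟩ := Nat.rfindOpt_spec (Part.get_mem (hdom a))
  simp only [F, Option.mem_def, Option.bind_eq_some_iff] at hn
  obtain ⟨b, -, hb⟩ := hn
  cases ht' : t ((a, b), n.unpair.2)
  · simp [ht'] at hb
  · simp only [ht', cond_true, Option.some.injEq] at hb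
    have hR : R a b := (H (a, b)).2 ⟨_, ht'⟩
    rw [hb] at hR
    exact hR

/-- a computable run of a total c.e. transition relation -/
theorem run {R : ℕ → α → α → Prop} (h : RE (fun z : (ℕ × α) × α => R z.1.1 z.1.2 z.2))
    (tot : ∀ s a, ∃ b, R s a b) (a0 : α) :
    ∃ st : ℕ → α, Computable st ∧ st 0 = a0 ∧ ∀ s, R s (st s) (st (s + 1)) := by
  obtain ⟨g, hg, H⟩ := uniformize (R := fun (x : ℕ × α) b => R x.1 x.2 b) h
    (fun x => tot x.1 x.2)
  refine ⟨fun s => Nat.rec a0 (fun y IH => g (y, IH)) s, ?_, rfl, fun s => H (s, _)⟩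
  exact Computable.nat_rec (f := fun s : ℕ => s) (g := fun _ => a0)
    (h := fun _ p => g p) Computable.id (Computable.const _) (by unfold Computable₂; fun_prop)

end RE

/-- uniformly computable family of (nonnegative) reals -/
def CR (F : α → ℝ) : Prop :=
  ∃ a : α × ℕ → ℕ, Computable a ∧ ∀ x n, |F x - a (x, n) / 2 ^ n| ≤ 1 / 2 ^ n

namespace CR

theorem of_err {F : α → ℝ} {a : α × ℕ → ℕ} {C : α → ℕ} (ha : Computable a) (hC : Computable C)
    (h : ∀ x n, |F x - a (x, n) / 2 ^ n| ≤ C x / 2 ^ n) : CR F := by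
  refine ⟨fun z => (a (z.1, z.2 + (C z.1 + 1)) + 2 ^ C z.1) / 2 ^ (C z.1 + 1), by fun_prop,
    fun x n => ?_⟩
  have h1 := h x (n + (C x + 1))
  set A := a (x, n + (C x + 1))
  set K := C x
  have hK : (K : ℝ) ≤ 2 ^ K := by exact_mod_cast Nat.lt_two_pow_self.le
  have hq1 : (A + 2 ^ K) / 2 ^ (K + 1) * 2 ^ (K + 1) ≤ A + 2 ^ K := Nat.div_mul_le_self _ _
  have hq2 : A + 2 ^ K < ((A + 2 ^ K) / 2 ^ (K + 1) + 1) * 2 ^ (K + 1) := by
    have := Nat.lt_mul_div_succ (A + 2 ^ K) (show 0 < 2 ^ (K + 1) by positivity)
    rwa [mul_comm] at this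
  set q := (A + 2 ^ K) / 2 ^ (K + 1)
  have hq1' : (q : ℝ) * 2 ^ (K + 1) ≤ A + 2 ^ K := by exact_mod_cast hq1
  have hq2' : (A : ℝ) + 2 ^ K < (q + 1) * 2 ^ (K + 1) := by exact_mod_cast hq2
  have hP : (0 : ℝ) < 2 ^ K := by positivity
  have hN : (0 : ℝ) < 2 ^ n := by positivity
  rw [pow_add, pow_succ] at h1
  rw [pow_succ] at hq1' hq2'
  set P : ℝ := 2 ^ K
  set N : ℝ := 2 ^ n
  have e1 : |F x - A / (N * (P * 2))| ≤ 1 / (2 * N) := by
    refine h1.trans ?_
    rw [div_le_div_iff₀ (by positivity) (by positivity)]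
    nlinarith
  have e2 : |(A : ℝ) / (N * (P * 2)) - q / N| ≤ 1 / (2 * N) := by
    have : (A : ℝ) / (N * (P * 2)) - q / N = (A - q * (P * 2)) / (N * (P * 2)) := by
      field_simp
    rw [this, abs_div, abs_of_pos (show (0 : ℝ) < N * (P * 2) by positivity),
      div_le_div_iff₀ (by positivity) (by positivity)]
    have : |(A : ℝ) - q * (P * 2)| ≤ P := abs_le.2 ⟨by linarith, by linarith⟩
    nlinarith
  calc |F x - q / N| = |(F x - A / (N * (P * 2))) + (A / (N * (P * 2)) - q / N)| := by ring_nf
    _ ≤ 1 / (2 * N) + 1 / (2 * N) := (abs_add_le _ _).trans (add_le_add e1 e2)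
    _ = 1 / N := by field_simp; ring

theorem of_eq {F G : α → ℝ} (h : CR F) (H : ∀ a, F a = G a) : CR G :=
  (funext H : F = G) ▸ h

theorem comp {F : β → ℝ} {f : α → β} (h : CR F) (hf : Computable f) : CR (fun a => F (f a)) := by
  obtain ⟨a, ha, H⟩ := h
  exact ⟨fun z => a (f z.1, z.2), by fun_prop, fun x n => H _ _⟩

theorem nat {f : α → ℕ} (hf : Computable f) : CR (fun a => (f a : ℝ)) := by
  refine ⟨fun z => f z.1 * 2 ^ z.2, by fun_prop, fun x n => ?_⟩
  have : (f x : ℝ) - ((f x * 2 ^ n : ℕ) : ℝ) / 2 ^ n = 0 := by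
    push_cast; field_simp; ring
  rw [this]; simp

theorem dyadic {f g : α → ℕ} (hf : Computable f) (hg : Computable g) :
    CR (fun a => (f a : ℝ) / 2 ^ g a) := by
  refine ⟨fun z => f z.1 * 2 ^ z.2 / 2 ^ g z.1, by fun_prop, fun x n => ?_⟩
  have hq1 : f x * 2 ^ n / 2 ^ g x * 2 ^ g x ≤ f x * 2 ^ n := Nat.div_mul_le_self _ _
  have hq2 : f x * 2 ^ n < (f x * 2 ^ n / 2 ^ g x + 1) * 2 ^ g x := by
    have := Nat.lt_mul_div_succ (f x * 2 ^ n) (show 0 < 2 ^ g x by positivity)
    rwa [mul_comm (2 ^ g x)] at this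
  set q := f x * 2 ^ n / 2 ^ g x
  have hq1' : (q : ℝ) * 2 ^ g x ≤ f x * 2 ^ n := by exact_mod_cast hq1
  have hq2' : (f x : ℝ) * 2 ^ n < (q + 1) * 2 ^ g x := by exact_mod_cast hq2
  have hP : (0 : ℝ) < 2 ^ g x := by positivity
  have hN : (0 : ℝ) < 2 ^ n := by positivity
  set P : ℝ := 2 ^ g x
  set N : ℝ := 2 ^ n
  have : (f x : ℝ) / P - q / N = (f x * N - q * P) / (P * N) := by field_simp
  rw [this, abs_div, abs_of_pos (show (0 : ℝ) < P * N by positivity),
    div_le_div_iff₀ (by positivity) (by positivity)]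
  have : |(f x : ℝ) * N - q * P| ≤ P := abs_le.2 ⟨by linarith, by linarith⟩
  nlinarith

theorem inv_pow {g : α → ℕ} (hg : Computable g) : CR (fun a => (1 : ℝ) / 2 ^ g a) :=
  (dyadic (f := fun _ => 1) (by fun_prop) hg).of_eq fun a => by simp

theorem add {F G : α → ℝ} (hF : CR F) (hG : CR G) : CR (fun a => F a + G a) := by
  obtain ⟨a, ha, H⟩ := hF
  obtain ⟨b, hb, H'⟩ := hG
  refine of_err (a := fun z => a z + b z) (C := fun _ => 2) (by fun_prop) (by fun_prop)
    fun x n => ?_
  have h1 := abs_le.1 (H x n)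
  have h2 := abs_le.1 (H' x n)
  push_cast
  rw [add_div, show (2 : ℝ) / 2 ^ n = 1 / 2 ^ n + 1 / 2 ^ n by ring]
  exact abs_le.2 ⟨by linarith, by linarith⟩

theorem max {F G : α → ℝ} (hF : CR F) (hG : CR G) : CR (fun a => max (F a) (G a)) := by
  obtain ⟨a, ha, H⟩ := hF
  obtain ⟨b, hb, H'⟩ := hG
  refine ⟨fun z => Max.max (a z) (b z), by fun_prop, fun x n => ?_⟩
  have h1 := H x n
  have h2 := H' x n
  have hN : (0 : ℝ) < 2 ^ n := by positivity
  push_cast
  rw [← max_div_div_right hN.le]
  exact (abs_max_sub_max_le_max _ _ _ _).trans (max_le h1 h2)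

theorem tsub {F G : α → ℝ} (hF : CR F) (hG : CR G) : CR (fun a => Max.max 0 (F a - G a)) := by
  obtain ⟨a, ha, H⟩ := hF
  obtain ⟨b, hb, H'⟩ := hG
  refine of_err (a := fun z => a z - b z) (C := fun _ => 2) (by fun_prop) (by fun_prop)
    fun x n => ?_
  have h1 := abs_le.1 (H x n)
  have h2 := abs_le.1 (H' x n)
  have hN : (0 : ℝ) < 2 ^ n := by positivity
  have e : ((a (x, n) - b (x, n) : ℕ) : ℝ) / 2 ^ n =
      Max.max 0 ((a (x, n) : ℝ) / 2 ^ n - b (x, n) / 2 ^ n) := by
    rcases le_total (a (x, n)) (b (x, n)) with h | h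
    · rw [Nat.sub_eq_zero_of_le h, max_eq_left]
      · simp
      · rw [← sub_div]
        exact div_nonpos_of_nonpos_of_nonneg (sub_nonpos.2 (by exact_mod_cast h)) hN.le
    · rw [Nat.cast_sub h, max_eq_right, sub_div]
      rw [← sub_div]
      exact div_nonneg (sub_nonneg.2 (by exact_mod_cast h)) hN.le
  rw [e]
  refine (abs_max_sub_max_le_max _ _ _ _).trans (max_le (by simp; positivity) ?_)
  push_cast
  rw [show (2 : ℝ) / 2 ^ n = 1 / 2 ^ n + 1 / 2 ^ n by ring]
  exact abs_le.2 ⟨by linarith, by linarith⟩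

theorem abs_sub {F G : α → ℝ} (hF : CR F) (hG : CR G) : CR (fun a => |F a - G a|) := by
  refine ((hF.tsub hG).max (hG.tsub hF)).of_eq fun a => ?_
  rcases le_total (F a) (G a) with h | h
  · rw [max_eq_left (sub_nonpos.2 h), max_eq_right (sub_nonneg.2 h),
      max_eq_right (sub_nonneg.2 h), abs_sub_comm, abs_of_nonneg (sub_nonneg.2 h)]
  · rw [max_eq_right (sub_nonneg.2 h), max_eq_left (sub_nonpos.2 h),
      max_eq_left (sub_nonneg.2 h), abs_of_nonneg (sub_nonneg.2 h)]

theorem nat_mul {f : α → ℕ} {F : α → ℝ} (hf : Computable f) (hF : CR F) :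
    CR (fun a => (f a : ℝ) * F a) := by
  obtain ⟨a, ha, H⟩ := hF
  refine of_err (a := fun z => f z.1 * a z) (C := f) (by fun_prop) hf fun x n => ?_
  push_cast
  rw [mul_div_assoc, ← mul_sub, abs_mul, abs_of_nonneg (Nat.cast_nonneg (f x)),
    div_eq_mul_one_div (f x : ℝ)]
  exact mul_le_mul_of_nonneg_left (H x n) (Nat.cast_nonneg _)

theorem pow_mul {f : α → ℕ} {F : α → ℝ} (hf : Computable f) (hF : CR F) :
    CR (fun a => (2 : ℝ) ^ f a * F a) :=
  (nat_mul (f := fun a => 2 ^ f a) (by fun_prop) hF).of_eq fun a => by push_cast; rfl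

theorem list_sum {l : α → List β} {F : α → β → ℝ} (hl : Computable l)
    (hF : CR (fun z : α × β => F z.1 z.2)) : CR (fun a => ((l a).map (F a)).sum) := by
  obtain ⟨a, ha, H⟩ := hF
  refine of_err (a := fun z => ((l z.1).map fun b => a ((z.1, b), z.2)).sum)
    (C := fun x => (l x).length) (by fun_prop) (by fun_prop) fun x n => ?_
  induction l x with
  | nil => simp
  | cons b m ih =>
    simp only [List.map_cons, List.sum_cons, List.length_cons]
    push_cast at ih ⊢
    have h1 := abs_le.1 (H (x, b) n)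
    have h2 := abs_le.1 ih
    rw [add_div, add_div]
    exact abs_le.2 ⟨by linarith, by linarith⟩

theorem list_max {l : α → List β} {F : α → β → ℝ} {G : α → ℝ} (hl : Computable l)
    (hF : CR (fun z : α × β => F z.1 z.2)) (hG : CR G) :
    CR (fun a => (l a).foldr (fun b acc => Max.max (F a b) acc) (G a)) := by
  obtain ⟨a, ha, H⟩ := hF
  obtain ⟨g, hg, H'⟩ := hG
  refine ⟨fun z => (l z.1).foldr (fun b acc => Max.max (a ((z.1, b), z.2)) acc) (g z),
    by fun_prop, fun x n => ?_⟩
  beta_reduce
  induction l x with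
  | nil => exact H' x n
  | cons b m ih =>
    simp only [List.foldr_cons]
    have hN : (0 : ℝ) < 2 ^ n := by positivity
    push_cast
    rw [← max_div_div_right hN.le]
    exact (abs_max_sub_max_le_max _ _ _ _).trans (max_le (H (x, b) n) ih)

theorem lt {F G : α → ℝ} (hF : CR F) (hG : CR G) : RE (fun a => F a < G a) := by
  obtain ⟨a, ha, H⟩ := hF
  obtain ⟨b, hb, H'⟩ := hG
  refine ⟨fun z => leb (a z + 3) (b z), by fun_prop, fun x => ?_⟩
  simp only [leb_iff]
  constructor
  · intro h
    obtain ⟨n, hn⟩ := exists_pow_lt_of_lt_one (show 0 < (G x - F x) / 5 by linarith)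
      (show (1 / 2 : ℝ) < 1 by norm_num)
    refine ⟨n, ?_⟩
    have h1 := abs_le.1 (H x n)
    have h2 := abs_le.1 (H' x n)
    have hN : (0 : ℝ) < 2 ^ n := by positivity
    rw [one_div_pow] at hn
    have : ((a (x, n) : ℝ) + 3) / 2 ^ n ≤ b (x, n) / 2 ^ n := by
      rw [add_div, show (3 : ℝ) / 2 ^ n = 3 * (1 / 2 ^ n) by ring]
      linarith
    rw [div_le_div_iff_of_pos_right hN] at this
    exact_mod_cast this
  · rintro ⟨n, hn⟩
    have h1 := abs_le.1 (H x n)
    have h2 := abs_le.1 (H' x n)
    have hN : (0 : ℝ) < 2 ^ n := by positivity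
    have : ((a (x, n) : ℝ) + 3) / 2 ^ n ≤ b (x, n) / 2 ^ n := by
      rw [div_le_div_iff_of_pos_right hN]
      exact_mod_cast hn
    rw [add_div, show (3 : ℝ) / 2 ^ n = 3 * (1 / 2 ^ n) by ring] at this
    have : (0 : ℝ) < 1 / 2 ^ n := by positivity
    linarith

end CR

end Pool.Agent.Lib.ComputableProp
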